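import Pool.Agent.Helper13GL.MurreMain

/-!
# Murre's conjecture (D) on the powers of a variety: the asymptotic law

Let `X` be a smooth projective complex variety of dimension `d` with total Betti number `b` and with a
Chow-Künneth decomposition `π^0, ⋯, π^{2d}` which is self-dual, that is, `π^{2d-i}` is the transpose of
`π^i` (such decompositions are known for curves, surfaces, abelian varieties, complete intersections
and for the products of such varieties). The powers `X^e` have the product decompositions. Let
`F^1 CH^a(X^e) = (π^0 + ⋯ + π^{2a-1}) CH^a(X^e)_ℚ`; it is contained in `CH^a_hom(X^e)_ℚ` and the question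
is whether the two spaces are equal. For `n ≥ 0` let

* `δ(n)` be the dimension (a number or infinity) of `CH^{dn}_hom(X^{2n})_ℚ / F^1 CH^{dn}(X^{2n})_ℚ`,
* `ρ(n)` be the rank of the group of cycles of codimension `d n` on `X^{2n}` modulo numerical
  equivalence.

*Theorem.* The sequence `δ(n) / ρ(n)` converges to a limit `A`, which is a natural number or infinity.
`A = 0` if and only if the question has a positive answer for all powers `X^e` (with the product
decomposition) and all codimensions. If `A` is finite then the Chow motive of `X` is Kimura-finite. For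
each `e`, the answer is positive for `X^e` in all codimensions if `2 δ(n) < ρ(n)` for one
`n ≥ 128 (e+1)² b^{4e+12}`. Here `ρ(n) ≥ b^{2n} / (n+1)^{b²}`.

The setting: `C` is the category of Chow motives over `ℂ` with rational coefficients, `T = h(X)`,
`D = ℚ(1)`, and `mot T D e a` is `h(X^e)(a)`, so that `𝟙 ⟶ mot T D e a` is `CH^a(X^e)_ℚ`; `R` is the
singular cohomology, with coefficients in an algebraically closed field `K ⊇ ℚ`, with its even and its
odd part. The morphisms whose realisation is zero are the homologically trivial ones.

The proof applies the law for the dimensions of the values of additive functors on the powers of an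
object of the starting library (N64) to the category of the motives with an action of the group `ℚˣ`:
the Chow-Künneth decomposition is the action `t ↦ Σ t^i π^i`, and `CH^a_hom / F^1` is the space of the
homologically trivial classes of nonnegative weights, which is a functor.
-/

set_option autoImplicit false

open CategoryTheory Limits MonoidalCategory Module Filter Topology
open Pool.Agent.Y112.SR Pool.Agent.Y112.KD Pool.Agent.N64.AF Pool.Agent.Helper13GL
open scoped ENNReal

namespace Pool.Agent.Results.MP_583472_ag.AsymptoticCriterion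

universe v u w

variable {C : Type u} [Category.{v} C] [Preadditive C] [MonoidalCategory C]
  [MonoidalPreadditive C] [SymmetricCategory C] [RightRigidCategory C]
  [Linear ℚ C] [MonoidalLinear ℚ C] [IsIdempotentComplete C]
  {K : Type w} [Field K] [IsAlgClosed K] [Algebra ℚ K] {R : SuperRealisation C K}

/-- The sequence `δ(n) / ρ(n)` converges to `A`. -/
def DefectRatioTo (hR : IsReal ℚ R) {T : C} (D : C) (d : ℕ) (π : ℕ → (T ⟶ T)) (A : ℕ∞) : Prop :=
  Tendsto (fun n => ((defectDim hR D π (2 * n) (d * n) : ℕ∞) : ℝ≥0∞) /
    numRank ℚ (mot T D (2 * n) (d * n))) atTop (𝓝 (A : ℝ≥0∞))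

/-- The question for the power `X^e` and the product decomposition, in all codimensions: the first
step of the filtration is the space of the homologically trivial classes. -/
def MurreDFor (hR : IsReal ℚ R) {T : C} (D : C) (d : ℕ) (π : ℕ → (T ⟶ T)) (e : ℕ) : Prop :=
  ∀ a, a ≤ d * e → stepOne D π e a = homSub hR (𝟙_ C) (mot T D e a)

theorem result (hR : IsReal ℚ R) (T D : C) (d : ℕ) (π : ℕ → (T ⟶ T))
    (h : IsChowKunneth R T D d π) :
    (∃ A : ℕ∞, DefectRatioTo hR D d π A ∧
      (A = 0 ↔ ∀ e, MurreDFor hR D d π e) ∧
      (A ≠ ⊤ → Pool.Agent.R905.IsKimuraFinite T)) ∧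
    (∀ e n, 128 * (e + 1) ^ 2 * bt R T ^ (4 * e + 12) ≤ n →
      2 * defectDim hR D π (2 * n) (d * n) < numRank ℚ (mot T D (2 * n) (d * n)) →
      MurreDFor hR D d π e) ∧
    ∀ n, bt R T ^ (2 * n) ≤ (n + 1) ^ (bt R T ^ 2) * numRank ℚ (mot T D (2 * n) (d * n)) := by
  obtain ⟨A, h1, h2, h3, h4⟩ := murre_law h hR
  refine ⟨⟨A, h1, h2, h3⟩, h4, fun n => ?_⟩
  obtain ⟨φ, -⟩ := h.duality
  obtain ⟨i⟩ := mot_iso (D := D) (d := d) ⟨φ⟩ n
  have h5 := growth (Λ := ℚ) hR ⟨evenPr π d, evenPr_map h⟩ n
  rw [← numRank_congr hR i, numRank_tensor_dual hR]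
  rwa [← pow_mul] at h5

end Pool.Agent.Results.MP_583472_ag.AsymptoticCriterion
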