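import Pool.Agent.Hx18.MD.Main

/-!
# Murre's conjectures for the motives generated by curves and complete intersections

Setting: Chow groups `C` with rational coefficients of a class of smooth projective varieties over
an uncountable algebraically closed field and a Weil cohomology `H`. Let `Q V q` imply that `(V, q)`
is a block: a motive cut out on a variety `V` of dimension `m ≥ 2` with cohomology concentrated in
degree `m`, such that `Δ_V - q` is a combination of products `a × b`, and such that the theorem on
pencils holds for `V`. The example: `V` is a complete intersection in a projective space, or the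
resolution of one with an ordinary double point, and `q` is `Δ_V` minus the products of the powers
of the hyperplane class (and of the exceptional divisor). A primitive motive of dimension `n` is a
product of motives `h^1(T)` of curves and of blocks of total dimension `n`.

For the varieties whose motives are direct summands of motives of products of curves and of such
varieties `V`, Murre's conjecture (D) holds, for all Chow-Kunneth decompositions, if and only if,
for all `j ≥ 2`, the homologically trivial cycles of codimension `j` of the primitive motives of the
single dimension `2 j` vanish; and if it holds, so do the conjectures (B) and (C) for these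
varieties. There are the corresponding results in bounded dimension.
-/

set_option autoImplicit false

open CategoryTheory AlgebraicGeometry

universe u v w

namespace Pool.Agent.Results.MP_583472_ag.CompleteIntersections

open Pool.Agent.H914 Pool.Agent.H914.VarClass Pool.Agent.W492.BB Pool.Agent.TH133
  Pool.Agent.Hx18.BB Pool.Agent.Hx18.CI Pool.Agent.Hx18.MD

variable {k : Type u} [Field k] {𝒱 : VarClass k}

/-- **Main theorem.** -/
theorem result (C : TheoryData.{u, v, 0} 𝒱 ℚ) [IsChowProj C] {K : Type w} [Field K]
    (H : WeilTheoryData.{u, v, w} C K) [IsWeilProj H]
    (Q : ∀ V : 𝒱.Obj, C.A (V.prod V) → Prop) (hQ : ∀ V q, Q V q → IsBlock H Q V q)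
    (hfib : FibreTheorem C) (habel : AbelTheorem H) :
    (∀ P, IsProduct Q P → ∃ π, IsDecomposition H P π) ∧
    ((∀ X, Generated C Q ⊤ X → ConjectureD H X) ↔ ∀ j : ℕ, 2 ≤ j → HomInjectiveOn H Q j) ∧
    ((∀ X, Generated C Q ⊤ X → ConjectureD H X) → ∀ X, Generated C Q ⊤ X →
      ConjectureB H X ∧ ConjectureC H X) ∧
    (∀ d : ℕ, (∀ j : ℕ, 2 ≤ j → j ≤ d → HomInjectiveOn H Q j) → ∀ X, Generated C Q d X →
      ConjectureB H X ∧ ConjectureC H X ∧ ConjectureD H X) ∧
    (∀ d : ℕ, (∀ X, Generated C Q d X → ConjectureD H X) → ∀ j : ℕ, 2 * j ≤ d →
      HomInjectiveOn H Q j) :=
  main C H Q hQ hfib habel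

end Pool.Agent.Results.MP_583472_ag.CompleteIntersections
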