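import Pool.Agent.Helper13MD.Conv

/-!
# Murre's conjecture (D) on the motives generated by curves and surfaces

`𝒱` is a class of smooth projective varieties closed under products (for example all complex ones),
`C` the Chow groups with rational coefficients (in the form of their formal properties), `H` a Weil
cohomology. `Q` is a class of transcendental motives `(S, q) = t_2(S)` of surfaces `S`, containing one
for each product of two curves. `G` is the class of the varieties whose Chow motives are direct
summands of motives of products of curves and of surfaces of `Q`.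

The theorem: the following are equivalent.

* Murre's conjecture (D) holds for all varieties of `G` and all their Chow-Kunneth decompositions;
* for all `j ≥ 2` the homologically trivial cycles of codimension `j` of the motives
  `t_2(S_1) ⊗ ⋯ ⊗ t_2(S_j)`, with exactly `j` surfaces, vanish.

They imply the conjectures (B) and (C) for all varieties of `G`. No finite dimensionality is assumed,
no cycle on a product with an odd cohomology group occurs in the second condition, and the vanishing
of `CH^i(t_2(S_1) ⊗ ⋯ ⊗ t_2(S_r) ⊗ h^1(T_1) ⊗ ⋯ ⊗ h^1(T_s))` for `2 r + s > 2 i` is deduced by a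
descent along pencils of curves. There is a version for varieties of bounded dimension.
-/

open CategoryTheory AlgebraicGeometry

universe u v w

namespace Pool.Agent.Results.MP_583472_ag.CurvesAndSurfaces

open Pool.Agent.H914 Pool.Agent.H914.VarClass Pool.Agent.H914.VarClass.Obj Pool.Agent.W492.BB
  Pool.Agent.Helper13BB.Stm Pool.Agent.Helper13MD.Stm

/-- Murre's conjecture (D) for the varieties generated by curves and surfaces is equivalent to the
vanishing of the homologically trivial cycles of codimension `j` of the products of `j`
transcendental motives of surfaces, `j ≥ 2`, and implies the conjectures (B) and (C). -/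
theorem result {k : Type u} [Field k] {𝒱 : VarClass k} {C : TheoryData.{u, v, 0} 𝒱 ℚ}
    (hC : IsChowTheory C) {K : Type w} [Field K] {H : WeilTheoryData.{u, v, w} C K}
    (hH : IsWeilTheory H) (hF : FibreProperty C) (hPic : PicardProperty H)
    (Q : ∀ S : 𝒱.Obj, C.A (S.prod S) → Prop) (hQ : ∀ S q, Q S q → IsTranscendental H S q)
    (hQ2 : ∀ T T' : 𝒱.Obj, T.dim = 1 → T'.dim = 1 → ∃ q, Q (T.prod T') q) :
    ((∀ X, SummandOf C (IsProduct Q) X → ConjectureD H X) ↔
      ∀ j, 2 ≤ j → InjectiveOnSurfaces H Q j) ∧
    ((∀ X, SummandOf C (IsProduct Q) X → ConjectureD H X) →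
      ∀ X, SummandOf C (IsProduct Q) X → ConjectureB H X ∧ ConjectureC H X) ∧
    ∀ d : ℕ,
      ((∀ j, 2 ≤ j → j ≤ d → InjectiveOnSurfaces H Q j) →
        ∀ X, SummandOf C (fun P => IsProduct Q P ∧ P.dim ≤ d) X →
          ConjectureB H X ∧ ConjectureC H X ∧ ConjectureD H X) ∧
      ((∀ X, SummandOf C (fun P => IsProduct Q P ∧ P.dim ≤ 2 * d) X → ConjectureD H X) →
        ∀ j, 2 ≤ j → j ≤ d → InjectiveOnSurfaces H Q j) :=
  Pool.Agent.Helper13MD.Conv.main hC hH hF hPic Q hQ hQ2

end Pool.Agent.Results.MP_583472_ag.CurvesAndSurfaces
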