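import Pool.Agent.Helper13HD.Main

/-!
# Murre's conjecture (D) for smooth hypersurfaces: large dimension suffices

Let `k` be an algebraically closed field of characteristic zero with an embedding into `ℂ`, for the
question `k = ℂ`. A smooth hypersurface `X` of dimension `n` and degree `d` has the Chow-Künneth
decomposition with `π^{2j} = d⁻¹ h^{n-j} × h^j` for `2 j ≠ n`, `π^k = 0` for odd `k ≠ n`, and
`π^n = Δ - ∑ π^{2j}`. The projector `π^{2j}`, `2 j ≠ n`, acts on `CH^i(X)` by
`α ↦ d⁻¹ deg(h^{n-i} α) h^i` if `j = i` and as zero otherwise.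

*Theorem.* Let `d ≥ 2`. If the equality `F^1 CH^i(X) = CH^i(X)_hom` of Murre's conjecture (D) holds for
all smooth hypersurfaces `X` of degree `d` and dimension `≥ m`, for some `m`, and all `i`, then it holds
for all smooth hypersurfaces of degree `d` and all `i`.

So for smooth hypersurfaces it suffices to prove (D) for those with `n ≥ f(d)`, where `f` is any function:
Fano hypersurfaces of arbitrarily large index, which are unirational if `f` grows fast enough.

The proof. For `2 i > n` the equality holds, and for `2 i ≤ n` it means that `CH^i(X)_hom = 0`. Let `W` be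
the smooth hypersurface `F(x) + u^d + u y^{d-1} = 0` of dimension `n + 2`, where `X : F = 0`. The affine
cone of `W` is a finite free covering of `M : F(x) = u t`, and the localisation sequence for the open
subset `u ≠ 0` of `M` gives an injection `CH_{n+1-i}(cone of X) → CH_{n+2-i}(M)` (Knörrer periodicity),
which is compatible with cycle classes. So `CH^{i+1}(W)_hom = 0` implies `CH^i(X)_hom = 0`. The known
properties of Chow groups and cycle classes are collected in `IsCycle`; the geometry is proved with the
coordinate rings.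
-/

set_option autoImplicit false

namespace Pool.Agent.Results.MP_583472_ag.HypersurfacesOfLargeDimension

open Pool.Agent.Helper13HC Pool.Agent.Helper13HD
open Finset (range)

variable {k : Type} [Field k]

/-- The map `lam F i` is `α ↦ d⁻¹ deg(h^{n-i} α)` on `A^i(X)`, `i ≤ n`, for smooth hypersurfaces `X : F = 0` of
degree `d` and dimension `n`. These are its known properties: `lam (h^i) = 1`, and `α` is homologically
equivalent to `lam(α) h^i` if `2 i ≠ n` (as `H^{2i}(X, ℚ)` is spanned by the class of `h^i`). -/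
structure IsDegreeMap (T : CycleData k)
    (lam : ∀ {n : ℕ} (F : MvPolynomial (Fin (n + 2)) k) (i : ℕ), T.A F i →ₗ[ℚ] ℚ) : Prop where
  power : ∀ {n d : ℕ} (F : MvPolynomial (Fin (n + 2)) k), 0 < d → IsSmoothForm F d →
    ∀ i ≤ n, lam F i (T.power F i) = 1
  hom : ∀ {n d : ℕ} (F : MvPolynomial (Fin (n + 2)) k), 0 < d → IsSmoothForm F d →
    ∀ i ≤ n, 2 * i ≠ n → ∀ a, T.clX F i a = lam F i a • T.clX F i (T.power F i)

variable (T : CycleData k)
  (lam : ∀ {n : ℕ} (F : MvPolynomial (Fin (n + 2)) k) (i : ℕ), T.A F i →ₗ[ℚ] ℚ)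

/-- The map `α ↦ d⁻¹ deg(h^{n-i} α) h^i` on `A^i(X)`. -/
def lineProj {n : ℕ} (F : MvPolynomial (Fin (n + 2)) k) (i : ℕ) : T.A F i →ₗ[ℚ] T.A F i :=
  (lam F i).smulRight (T.power F i)

/-- The action of the projector `π^j` on `A^i(X)`. -/
def projAct {n : ℕ} (F : MvPolynomial (Fin (n + 2)) k) (j i : ℕ) : T.A F i →ₗ[ℚ] T.A F i :=
  if j = n then (if 2 * i = n then LinearMap.id else LinearMap.id - lineProj T lam F i)
  else (if j = 2 * i then lineProj T lam F i else 0)

/-- The first step `F^1 A^i(X)` of Murre's filtration: the image of `π^0 + ⋯ + π^{2i-1}`. -/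
def stepOne {n : ℕ} (F : MvPolynomial (Fin (n + 2)) k) (i : ℕ) : Submodule ℚ (T.A F i) :=
  LinearMap.range (∑ j ∈ range (2 * i), projAct T lam F j i)

/-- Murre's conjecture (D) for all smooth hypersurfaces of dimension `n` and degree `d`:
`F^1 A^i(X) = A^i(X)_hom`, `1 ≤ i ≤ n`. -/
def MurreD (n d : ℕ) : Prop :=
  ∀ F : MvPolynomial (Fin (n + 2)) k, IsSmoothForm F d → ∀ i, 1 ≤ i → i ≤ n →
    stepOne T lam F i = LinearMap.ker (T.clX F i)

variable {T lam}

lemma stepOne_low {n : ℕ} (F : MvPolynomial (Fin (n + 2)) k) {i : ℕ} (hi : 2 * i ≤ n) :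
    stepOne T lam F i = ⊥ := by
  have h : ∑ j ∈ range (2 * i), projAct T lam F j i = 0 := by
    refine Finset.sum_eq_zero fun j hj => ?_
    rw [Finset.mem_range] at hj
    rw [projAct, if_neg (by omega), if_neg (by omega)]
  rw [stepOne, h, LinearMap.range_zero]

lemma stepOne_high (hT : IsCycle T) (hl : IsDegreeMap T lam) {n d : ℕ}
    {F : MvPolynomial (Fin (n + 2)) k} (hd : 0 < d) (hF : IsSmoothForm F d) {i : ℕ}
    (hi : n < 2 * i) (hi' : i ≤ n) : stepOne T lam F i = LinearMap.ker (T.clX F i) := by
  have h : ∑ j ∈ range (2 * i), projAct T lam F j i = LinearMap.id - lineProj T lam F i := by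
    rw [Finset.sum_eq_single n]
    · rw [projAct, if_pos rfl, if_neg (by omega)]
    · intro j hj hj'
      rw [Finset.mem_range] at hj
      rw [projAct, if_neg hj', if_neg (by omega)]
    · intro h
      exact absurd (Finset.mem_range.2 hi) h
  have hcl := hl.hom F hd hF i hi' (by omega)
  rw [stepOne, h]
  ext a
  rw [LinearMap.mem_range, LinearMap.mem_ker]
  constructor
  · rintro ⟨b, rfl⟩
    rw [LinearMap.sub_apply, LinearMap.id_apply, lineProj, LinearMap.smulRight_apply, map_sub,
      map_smul, ← hcl, sub_self]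
  · intro ha
    refine ⟨a, ?_⟩
    rw [hcl] at ha
    have h1 : lam F i a = 0 :=
      (smul_eq_zero.1 ha).resolve_right (hT.nonzero F hd hF i hi')
    rw [LinearMap.sub_apply, LinearMap.id_apply, lineProj, LinearMap.smulRight_apply, h1,
      zero_smul, sub_zero]

lemma murre_iff {n : ℕ} {F : MvPolynomial (Fin (n + 2)) k} {i : ℕ} (hi : 2 * i ≤ n) :
    stepOne T lam F i = LinearMap.ker (T.clX F i) ↔ HomInjective T F i := by
  rw [stepOne_low F hi, eq_comm, LinearMap.ker_eq_bot']
  rfl

theorem result [IsAlgClosed k] [CharZero k] (hT : IsCycle T) (hl : IsDegreeMap T lam)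
    {d : ℕ} (hd : 2 ≤ d) (m : ℕ) (h : ∀ n, m ≤ n → MurreD T lam n d) :
    ∀ n, MurreD T lam n d := by
  have step : ∀ n, MurreD T lam (n + 2) d → MurreD T lam n d := by
    intro n hn F hF i h1 h2
    rcases le_or_gt (2 * i) n with h3 | h3
    · have hW : IsSmoothForm (susp F (d - 1)) d := by
        obtain ⟨e, rfl⟩ : ∃ e, d = e + 1 := ⟨d - 1, by omega⟩
        exact susp_smooth (by omega) hF
      rw [murre_iff h3]
      refine hT.step hd hF h1 h2 ?_
      rw [← murre_iff (lam := lam) (n := n + 2) (by omega)]
      exact hn _ hW _ (by omega) (by omega)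
    · exact stepOne_high hT hl (by omega) hF h3 h2
  have add : ∀ a n, MurreD T lam (n + 2 * a) d → MurreD T lam n d := by
    intro a
    induction a with
    | zero => exact fun n hn => hn
    | succ a ih => exact fun n hn => ih n (step _ hn)
  exact fun n => add m n (h _ (by omega))

end Pool.Agent.Results.MP_583472_ag.HypersurfacesOfLargeDimension
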